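import Pool.Agent.Q95.EigMult3

set_option autoImplicit false

/-!
# MP_4bb7d7_co: the lower-order term `√n` for the maximum multiplicity of a graph eigenvalue

`mult G lam` is the multiplicity of the real number `lam` as an eigenvalue of the adjacency matrix of the
simple graph `G`, and `Es n lam` is the largest multiplicity for simple graphs on `n` vertices.

Let `lam` be a real algebraic integer of degree `d`, and let `t` be its trace (the sum of its conjugates).
If `t > 0` or `t < -d`, then `Es n lam ≤ n / d - c √n` for some `c > 0` and all large `n`. For instance, this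
holds for the golden ratio (`d = 2`, `t = 1`), the largest eigenvalue of the path with four vertices. This
answers Q1 in the affirmative.

Proof: split the adjacency matrix as `A = E + W`, where `E` is the part of the spectral decomposition that belongs
to the conjugates of `lam`. Here `W` has rank `k = n - d m`, its trace is `- m t`, and `E` has bounded rows, so
`W` is close to a zero-one matrix off the diagonal and its diagonal entries are on the average not in `[0, 1]`.
The matrix `W ∘ W - W` (entrywise product) has rank at most `k ^ 2 + k`, trace at least a constant times `n` and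
Frobenius norm at most a constant times `√n`; hence its rank is at least a constant times `n`.
-/

namespace Pool.Agent.Results.MP_4bb7d7_co.TraceObstruction

open Polynomial

open Classical in
/-- The multiplicity of `lam` as an eigenvalue of the adjacency matrix of `G`: the dimension of the space of the
vectors `v` with `A v = lam v`. It is `0` if `lam` is not an eigenvalue. -/
noncomputable def mult {n : ℕ} (G : SimpleGraph (Fin n)) (lam : ℝ) : ℕ :=
  Module.finrank ℝ (Module.End.eigenspace (Matrix.toLin' (G.adjMatrix ℝ)) lam)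

/-- The largest multiplicity of `lam` as an eigenvalue of a simple graph with `n` vertices. -/
noncomputable def Es (n : ℕ) (lam : ℝ) : ℕ := sSup {m | ∃ G : SimpleGraph (Fin n), mult G lam = m}

/-- The degree of an algebraic number. -/
noncomputable def deg (lam : ℝ) : ℕ := (minpoly ℚ lam).natDegree

/-- The trace of an algebraic number: the sum of its conjugates, that is, minus the second coefficient of its
minimal polynomial. -/
noncomputable def tr (lam : ℝ) : ℚ := - (minpoly ℚ lam).nextCoeff

lemma exists_graph (n : ℕ) (lam : ℝ) : ∃ G : SimpleGraph (Fin n), mult G lam = Es n lam := by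
  have h : Es n lam ∈ {m | ∃ G : SimpleGraph (Fin n), mult G lam = m} := by
    refine Nat.sSup_mem ⟨mult (⊥ : SimpleGraph (Fin n)) lam, ⟨⊥, rfl⟩⟩ ⟨n, ?_⟩
    rintro m ⟨G, rfl⟩
    unfold mult
    refine (Submodule.finrank_le _).trans ?_
    simp
  exact h

theorem general (lam : ℝ) (hint : IsIntegral ℤ lam)
    (ht : 0 < tr lam ∨ tr lam < - (deg lam : ℚ)) :
    ∃ c : ℝ, 0 < c ∧ ∃ n₀ : ℕ, ∀ n : ℕ, n₀ ≤ n → (Es n lam : ℝ) ≤ n / deg lam - c * √n := by
  classical
  have hint' : IsIntegral ℚ lam := hint.tower_top
  have hd : 0 < deg lam := minpoly.natDegree_pos hint'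
  have hd' : (0 : ℝ) < deg lam := by exact_mod_cast hd
  obtain ⟨η, β, hη, hβ, hηβ⟩ : ∃ η β : ℝ, 0 < η ∧ 0 < β ∧
      ∀ x : ℝ, (1 - η) / deg lam ≤ x → x ≤ 1 / deg lam →
        β ≤ (x * ((tr lam : ℚ) : ℝ)) ^ 2 + x * ((tr lam : ℚ) : ℝ) := by
    rcases ht with ht | ht
    · have ht' : (0 : ℝ) < ((tr lam : ℚ) : ℝ) := by exact_mod_cast ht
      refine ⟨1 / 2, ((tr lam : ℚ) : ℝ) / (2 * deg lam), by norm_num, by positivity, ?_⟩
      intro x hx _
      have h1 : ((tr lam : ℚ) : ℝ) / (2 * deg lam) = (1 - 1 / 2) / deg lam * ((tr lam : ℚ) : ℝ) := by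
        field_simp; norm_num
      rw [h1]
      have h2 := mul_le_mul_of_nonneg_right hx ht'.le
      have h3 := sq_nonneg (x * ((tr lam : ℚ) : ℝ))
      linarith
    · have ht' : ((tr lam : ℚ) : ℝ) < - (deg lam : ℝ) := by exact_mod_cast ht
      obtain ⟨a, ha⟩ : ∃ a : ℝ, a = - ((tr lam : ℚ) : ℝ) / deg lam := ⟨_, rfl⟩
      have ha1 : 1 < a := by
        rw [ha, lt_div_iff₀ hd']; linarith
      have hat : ((tr lam : ℚ) : ℝ) = - (a * deg lam) := by
        rw [ha]; field_simp
      refine ⟨(a - 1) / (2 * a), (a ^ 2 - 1) / 4, ?_, ?_, ?_⟩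
      · exact div_pos (by linarith) (by linarith)
      · have : 0 < a ^ 2 - 1 := by nlinarith
        linarith
      · intro x hx _
        have h1 : (1 - (a - 1) / (2 * a)) / deg lam * (a * deg lam) = (a + 1) / 2 := by
          field_simp; ring
        have h2 := mul_le_mul_of_nonneg_right hx (show 0 ≤ a * deg lam by positivity)
        rw [h1] at h2
        rw [hat]
        nlinarith
  obtain ⟨c, hc, n₀, h⟩ := Pool.Agent.Q95.EigMult.numerics (d := deg lam) hd
    (t := ((tr lam : ℚ) : ℝ))
    (L := ∑ ρ ∈ ((minpoly ℚ lam).map (algebraMap ℚ ℝ)).roots.toFinset, |ρ|) hη hβ hηβ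
  refine ⟨c, hc, max n₀ 1, ?_⟩
  intro n hn
  obtain ⟨G, hG⟩ := exists_graph n lam
  rw [← hG]
  refine h n ((le_max_left _ _).trans hn) (mult G lam) ?_
  have hn1 : 0 < n := lt_of_lt_of_le Nat.one_pos ((le_max_right _ _).trans hn)
  have hA : (G.adjMatrix ℝ).IsHermitian := by
    ext i j
    simp [SimpleGraph.adjMatrix_apply, SimpleGraph.adj_comm]
  have key := Pool.Agent.Q95.EigMult.one_matrix hA
    (fun x y => by
      rw [SimpleGraph.adjMatrix_apply]
      by_cases h : G.Adj x y
      · right; simp [h]
      · left; simp [h])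
    (fun x => by simp)
    (G.adjMatrix ℚ) (by
      ext i j
      simp only [Matrix.map_apply, SimpleGraph.adjMatrix_apply]
      split_ifs <;> simp) hint' (by simpa using hn1)
  simp only [Fintype.card_fin] at key
  intro hpos
  exact key hpos

lemma golden_minpoly : minpoly ℚ Real.goldenRatio = X ^ 2 - X - 1 := by
  have hdeg : (X ^ 2 - X - 1 : ℚ[X]).natDegree = 2 := by compute_degree!
  have hmon : (X ^ 2 - X - 1 : ℚ[X]).Monic := by monicity!
  have hae : aeval Real.goldenRatio (X ^ 2 - X - 1 : ℚ[X]) = 0 := by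
    simp only [map_sub, map_pow, aeval_X, map_one]
    rw [Real.goldenRatio_sq]; ring
  have hint : IsIntegral ℚ Real.goldenRatio := ⟨_, hmon, hae⟩
  have hdvd := minpoly.dvd ℚ _ hae
  have h1 : (minpoly ℚ Real.goldenRatio).natDegree ≤ 2 := by
    rw [← hdeg]; exact natDegree_le_of_dvd hdvd hmon.ne_zero
  have h2 : 0 < (minpoly ℚ Real.goldenRatio).natDegree := minpoly.natDegree_pos hint
  have h3 : (minpoly ℚ Real.goldenRatio).natDegree ≠ 1 := by
    intro h
    rw [minpoly.natDegree_eq_one_iff] at h
    obtain ⟨q, hq⟩ := h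
    exact Real.goldenRatio_irrational ⟨q, by simpa using hq⟩
  have h4 : (minpoly ℚ Real.goldenRatio).natDegree = 2 := by omega
  exact (Polynomial.eq_of_monic_of_dvd_of_natDegree_le (minpoly.monic hint) hmon hdvd (by omega)).symm

lemma golden_path : 0 < mult (SimpleGraph.pathGraph 4) Real.goldenRatio := by
  classical
  unfold mult
  rw [Module.finrank_pos_iff_exists_ne_zero]
  refine ⟨⟨![1, Real.goldenRatio, Real.goldenRatio, 1], ?_⟩, ?_⟩
  · rw [Module.End.mem_eigenspace_iff]
    have hsq := Real.goldenRatio_sq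
    ext i
    rw [Matrix.toLin'_apply]
    fin_cases i <;>
      simp [Matrix.mulVec, dotProduct, Fin.sum_univ_four, SimpleGraph.adjMatrix_apply,
        SimpleGraph.pathGraph_adj] <;> nlinarith
  · intro h
    have := congrFun (congrArg Subtype.val h) 0
    simp at this

/-- **The answer to Q1 is yes.** There is a real algebraic integer `lam` of degree `d ≥ 2` that is an eigenvalue of
a graph and satisfies `Es n lam ≤ n / d - c √n` for all large `n`. More generally, this inequality holds for every
real algebraic integer `lam` of degree `d` (with a constant `c > 0` that depends on `lam`) for which the trace of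
`lam` is positive or smaller than `-d`; an example is the golden ratio, an eigenvalue of the path with four
vertices, with `d = 2` and trace `1`. -/
theorem result :
    (∃ lam : ℝ, IsIntegral ℤ lam ∧ 2 ≤ deg lam ∧
      (∃ n : ℕ, ∃ G : SimpleGraph (Fin n), 0 < mult G lam) ∧
      ∃ c : ℝ, 0 < c ∧ ∃ n₀ : ℕ, ∀ n : ℕ, n₀ ≤ n → (Es n lam : ℝ) ≤ n / deg lam - c * √n) ∧
    (∀ lam : ℝ, IsIntegral ℤ lam → (0 < tr lam ∨ tr lam < - (deg lam : ℚ)) →
      ∃ c : ℝ, 0 < c ∧ ∃ n₀ : ℕ, ∀ n : ℕ, n₀ ≤ n → (Es n lam : ℝ) ≤ n / deg lam - c * √n) ∧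
    (IsIntegral ℤ Real.goldenRatio ∧ deg Real.goldenRatio = 2 ∧ tr Real.goldenRatio = 1 ∧
      0 < mult (SimpleGraph.pathGraph 4) Real.goldenRatio) := by
  have hint : IsIntegral ℤ Real.goldenRatio := by
    refine ⟨X ^ 2 - X - 1, by monicity!, ?_⟩
    simp only [eval₂_sub, eval₂_pow, eval₂_X, eval₂_one]
    rw [Real.goldenRatio_sq]; ring
  have hdeg : deg Real.goldenRatio = 2 := by
    unfold deg
    rw [golden_minpoly]
    compute_degree!
  have htr : tr Real.goldenRatio = 1 := by
    unfold tr
    rw [golden_minpoly]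
    have hdeg : (X ^ 2 - X - 1 : ℚ[X]).natDegree = 2 := by compute_degree!
    rw [nextCoeff_of_natDegree_pos (by omega), hdeg]
    simp [coeff_X, coeff_one]
  exact ⟨⟨Real.goldenRatio, hint, by omega, ⟨4, SimpleGraph.pathGraph 4, golden_path⟩,
    general _ hint (Or.inl (by rw [htr]; norm_num))⟩, fun lam h1 h2 => general lam h1 h2,
    hint, hdeg, htr, golden_path⟩

end Pool.Agent.Results.MP_4bb7d7_co.TraceObstruction
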